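import Pool.Agent.H509.MO.EStm
import Pool.Graph.R_pool_sql_team_seeded_3997aac3.Q225.AR.FR

/-!
MO-QUO (helper215 for helper509): the fixed field of the kernel.
-/

set_option autoImplicit false
set_option linter.unusedSectionVars false

open NumberField IsDedekindDomain

noncomputable section

namespace Pool.Agent.H215.MO

open Pool.Agent.MO

/-- In an abelian extension a Frobenius element at one prime above `v` is one at all of them. -/
theorem frobAt_of_isFrobenius {K L : Type} [Field K] [NumberField K] [Field L] [NumberField L]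
    [Algebra K L] [IsGalois K L] (hc : ∀ g h : Gal(L/K), g * h = h * g)
    (v : HeightOneSpectrum (𝓞 K)) (g : Gal(L/K))
    (hg : Pool.Agent.Q92.AR.IsFrobenius v g) : FrobAt v g := by
  obtain ⟨w₀, hm, hc0, hw₀⟩ := hg
  intro w hw x y hy
  have : w₀.IsPrime := hm.isPrime
  have : w.asIdeal.LiesOver v.asIdeal := hw
  have : w₀.LiesOver v.asIdeal := ⟨hc0.symm⟩
  obtain ⟨τ, hτ⟩ := Ideal.exists_smul_eq_of_isGaloisGroup v.asIdeal w₀ w.asIdeal Gal(L/K)
  -- `x = τ x₀`
  set x₀ : 𝓞 L := τ⁻¹ • x with hx₀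
  obtain ⟨y₀, hy₀, hyx⟩ := hw₀ x₀
  have hcoe : ∀ (s : Gal(L/K)) (z : 𝓞 L), ((s • z : 𝓞 L) : L) = s (z : L) := by
    intro s z
    rfl
  have h1 : y = τ • y₀ := by
    apply RingOfIntegers.ext
    rw [hcoe, hyx, hy, map_sub, map_pow]
    have h2 : τ (x₀ : L) = x := by
      rw [← hcoe, hx₀, smul_inv_smul]
    have h3 : τ (g (x₀ : L)) = g (x : L) := by
      have h4 : τ (g (x₀ : L)) = (τ * g) (x₀ : L) := rfl
      rw [h4, hc τ g]
      show g (τ (x₀ : L)) = _
      rw [h2]
    rw [h2, h3]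
  rw [h1, ← hτ]
  exact Ideal.smul_mem_pointwise_smul _ _ _ hy₀

theorem quo : S_QUO := by
  intro K M _ _ _ _ _ _ G _ Φ hΦ
  classical
  let H : Subgroup (M ≃ₐ[K] M) := Φ.ker
  have : H.Normal := MonoidHom.normal_ker Φ
  let L : IntermediateField K M := IntermediateField.fixedField H
  let e1 : (M ≃ₐ[K] M) ⧸ H ≃* G := QuotientGroup.quotientKerEquivOfSurjective Φ hΦ
  let e2 : (M ≃ₐ[K] M) ⧸ H ≃* Gal(L/K) := IsGalois.normalAutEquivQuotient H
  let θ : G ≃* Gal(L/K) := e1.symm.trans e2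
  have hgal : IsGalois K L := IsGalois.of_fixedField_normal_subgroup H
  have hcomm : ∀ g h : Gal(L/K), g * h = h * g := by
    intro g h
    have h1 : θ.symm (g * h) = θ.symm (h * g) := by
      rw [map_mul, map_mul, mul_comm]
    exact θ.symm.injective h1
  have hab : IsAbelianGalois K L :=
    { toIsGalois := hgal, toIsMulCommutative := ⟨⟨hcomm⟩⟩ }
  have : NumberField L := inferInstance
  refine ⟨L, inferInstance, inferInstance, inferInstance, hab, θ, fun v g hg => ?_⟩
  have hθ : θ (Φ g) = AlgEquiv.restrictNormal g L := by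
    have h1 : e1.symm (Φ g) = (g : (M ≃ₐ[K] M) ⧸ H) := by
      rw [MulEquiv.symm_apply_eq]
      rfl
    show e2 (e1.symm (Φ g)) = _
    rw [h1]
    exact IsGalois.normalAutEquivQuotient_apply H g
  rw [hθ]
  exact frobAt_of_isFrobenius hcomm v _ (Pool.Agent.Q225.AR.fr1 K L M v g hg)

end Pool.Agent.H215.MO
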